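import Mathlib

namespace Pool.Agent.Results.MP_87d29b_co.TopPredistance

open Polynomial Matrix

open Classical in
/-- The real adjacency matrix. -/
noncomputable def adj {n : ℕ} (G : SimpleGraph (Fin n)) : Matrix (Fin n) (Fin n) ℝ :=
  G.adjMatrix ℝ

/-- The set of (distinct) adjacency eigenvalues. -/
def eigenvalues {n : ℕ} (G : SimpleGraph (Fin n)) : Set ℝ :=
  {μ | ∃ x : Fin n → ℝ, x ≠ 0 ∧ adj G *ᵥ x = μ • x}

/-- Walk-regularity: the number of closed walks of each length does not depend on the vertex. -/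
def WalkRegular {n : ℕ} (G : SimpleGraph (Fin n)) : Prop :=
  ∀ (l : ℕ) (x y : Fin n), (adj G ^ l) x x = (adj G ^ l) y y

/-- `D` is the diameter of the (connected) graph `G`. -/
def IsDiameter {n : ℕ} (G : SimpleGraph (Fin n)) (D : ℕ) : Prop :=
  (∀ x y, G.dist x y ≤ D) ∧ ∃ x y, G.dist x y = D

/-- The number of vertices at distance exactly `D` from `x`. -/
noncomputable def sphere {n : ℕ} (G : SimpleGraph (Fin n)) (D : ℕ) (x : Fin n) : ℕ :=
  {y | G.dist x y = D}.ncard

/-- The inner product `tr (f(A) g(A)) / n`. -/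
noncomputable def ip {n : ℕ} (G : SimpleGraph (Fin n)) (f g : ℝ[X]) : ℝ :=
  (1 / n) * trace (aeval (adj G) f * aeval (adj G) g)

/-- `p 0, …, p d` are the predistance polynomials, `lam0` being the largest eigenvalue. -/
structure IsPredistance {n : ℕ} (G : SimpleGraph (Fin n)) (d : ℕ) (lam0 : ℝ)
    (p : ℕ → ℝ[X]) : Prop where
  deg : ∀ i ≤ d, (p i).degree = i
  orth : ∀ i ≤ d, ∀ j ≤ d, i ≠ j → ip G (p i) (p j) = 0
  norm : ∀ i ≤ d, ip G (p i) (p i) = (p i).eval lam0

/-- The 3-prism, as a Cayley graph of the integers mod 6 with connection set {2, 3, 4}. -/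
def prism : SimpleGraph (Fin 6) where
  Adj i j := j - i = 2 ∨ j - i = 3 ∨ j - i = 4
  symm := ⟨by decide⟩
  loopless := ⟨by decide⟩

instance : DecidableRel prism.Adj := fun i j => by unfold prism; infer_instance

/-- Integer adjacency matrix. -/
def M : Matrix (Fin 6) (Fin 6) ℤ := Matrix.of fun i j => if prism.Adj i j then 1 else 0

theorem adj_eq : adj prism = M.map (Int.cast : ℤ → ℝ) := by
  classical
  ext i j
  simp only [adj, SimpleGraph.adjMatrix_apply, M, Matrix.map_apply, Matrix.of_apply]
  by_cases h : prism.Adj i j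
  · simp [h]
  · simp [h]

theorem adj_map : adj prism = (Int.castRingHom ℝ).mapMatrix M := adj_eq

theorem adj_pow (l : ℕ) (x y : Fin 6) : (adj prism ^ l) x y = ((M ^ l) x y : ℝ) := by
  rw [adj_map, ← map_pow]
  rfl

theorem M_rec : M ^ 4 = 2 * M ^ 3 + 5 * M ^ 2 - 6 * M := by decide

theorem M_trace (m : ℕ) : trace (M ^ m) = 3 ^ m + 1 + 2 * 0 ^ m + 2 * (-2) ^ m := by
  induction m using Nat.strong_induction_on with
  | _ m ih =>
    match m with
    | 0 => decide
    | 1 => decide
    | 2 => decide
    | 3 => decide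
    | m + 4 =>
      have h : M ^ (m + 4) = (2 : ℤ) • M ^ (m + 3) + (5 : ℤ) • M ^ (m + 2) - (6 : ℤ) • M ^ (m + 1) := by
        rw [pow_add, M_rec]
        have e2 : (2 : Matrix (Fin 6) (Fin 6) ℤ) * M ^ 3 = (2 : ℤ) • M ^ 3 := by decide
        have e5 : (5 : Matrix (Fin 6) (Fin 6) ℤ) * M ^ 2 = (5 : ℤ) • M ^ 2 := by decide
        have e6 : (6 : Matrix (Fin 6) (Fin 6) ℤ) * M = (6 : ℤ) • M := by decide
        rw [e2, e5, e6, mul_sub, mul_add, mul_smul_comm, mul_smul_comm, mul_smul_comm,
          ← pow_add, ← pow_add, ← pow_succ]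
      rw [h, trace_sub, trace_add, trace_smul, trace_smul, trace_smul, ih (m + 3) (by omega),
        ih (m + 2) (by omega), ih (m + 1) (by omega)]
      simp only [smul_eq_mul]
      ring

theorem adj_trace (m : ℕ) : trace (adj prism ^ m) = 3 ^ m + 1 + 2 * 0 ^ m + 2 * (-2) ^ m := by
  have h : trace (adj prism ^ m) = ((trace (M ^ m) : ℤ) : ℝ) := by
    simp only [trace, diag_apply, adj_pow]
    push_cast
    rfl
  rw [h, M_trace]
  push_cast
  rfl

theorem trace_aeval (h : ℝ[X]) : trace (aeval (adj prism) h) =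
    h.eval 3 + h.eval 1 + 2 * h.eval 0 + 2 * h.eval (-2) := by
  induction h using Polynomial.induction_on' with
  | add p q hp hq =>
    rw [map_add, trace_add, hp, hq]
    simp only [eval_add]
    ring
  | monomial k c =>
    rw [aeval_monomial, ← Algebra.smul_def, trace_smul, adj_trace]
    simp only [eval_monomial, smul_eq_mul, one_pow]
    ring

theorem ip_eq (f g : ℝ[X]) : ip prism f g = (1 / 6) * (f.eval 3 * g.eval 3 +
    f.eval 1 * g.eval 1 + 2 * (f.eval 0 * g.eval 0) + 2 * (f.eval (-2) * g.eval (-2))) := by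
  unfold ip
  rw [← map_mul, trace_aeval]
  simp only [eval_mul]
  norm_num

theorem M_shift1 : ∀ g z y : Fin 6, M (z + g) (y + g) = M z y := by decide

theorem far : ∀ x y : Fin 6, (¬ y - x = 1 ∧ ¬ y - x = 5) → x = y ∨ prism.Adj x y := by decide

theorem nonadj : ∀ x y : Fin 6, (y - x = 1 ∨ y - x = 5) → ¬ prism.Adj x y := by decide

theorem common : ∀ x y : Fin 6, (y - x = 1 ∨ y - x = 5) → ∃ z, prism.Adj x z ∧ prism.Adj z y := by
  decide

theorem M_shift (l : ℕ) (g x y : Fin 6) : (M ^ l) (x + g) (y + g) = (M ^ l) x y := by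
  induction l generalizing x y with
  | zero =>
    simp only [pow_zero, Matrix.one_apply, add_left_inj]
  | succ l ih =>
    rw [pow_succ, Matrix.mul_apply, Matrix.mul_apply,
      ← Equiv.sum_comp (Equiv.addRight g)]
    refine Finset.sum_congr rfl fun z _ => ?_
    simp only [Equiv.coe_addRight]
    rw [ih, M_shift1]

theorem walkRegular : WalkRegular prism := by
  intro l x y
  rw [adj_pow, adj_pow]
  have h := M_shift l (y - x) x x
  rw [add_sub_cancel] at h
  rw [h]

theorem eig_sub : eigenvalues prism = {3, 1, 0, -2} := by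
  apply Set.eq_of_subset_of_subset
  · rintro μ ⟨x, hx, h⟩
    have h2 : adj prism ^ 2 *ᵥ x = μ ^ 2 • x := by
      rw [pow_two, ← mulVec_mulVec, h, mulVec_smul, h, smul_smul, pow_two]
    have h3 : adj prism ^ 3 *ᵥ x = μ ^ 3 • x := by
      rw [pow_succ, ← mulVec_mulVec, h, mulVec_smul, h2, smul_smul]
      congr 1; ring
    have h4 : adj prism ^ 4 *ᵥ x = μ ^ 4 • x := by
      rw [pow_succ, ← mulVec_mulVec, h, mulVec_smul, h3, smul_smul]
      congr 1; ring
    have hr : adj prism ^ 4 = (2 : ℝ) • adj prism ^ 3 + (5 : ℝ) • adj prism ^ 2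
        - (6 : ℝ) • adj prism := by
      have e2 : (2 : Matrix (Fin 6) (Fin 6) ℤ) * M ^ 3 = (2 : ℤ) • M ^ 3 := by decide
      have e5 : (5 : Matrix (Fin 6) (Fin 6) ℤ) * M ^ 2 = (5 : ℤ) • M ^ 2 := by decide
      have e6 : (6 : Matrix (Fin 6) (Fin 6) ℤ) * M = (6 : ℤ) • M := by decide
      have h := M_rec
      rw [e2, e5, e6] at h
      ext i j
      have hij := congrFun (congrFun h i) j
      simp only [Matrix.sub_apply, Matrix.add_apply, Matrix.smul_apply, smul_eq_mul] at hij ⊢
      rw [adj_pow, adj_pow, adj_pow, hij, ← pow_one (adj prism), adj_pow, pow_one]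
      push_cast
      ring
    rw [hr, sub_mulVec, add_mulVec, smul_mulVec, smul_mulVec, smul_mulVec, h3, h2, h] at h4
    have h5 : (μ ^ 4 - 2 * μ ^ 3 - 5 * μ ^ 2 + 6 * μ) • x = 0 := by
      rw [add_smul, sub_smul, sub_smul, ← h4]
      simp only [smul_smul]
      abel
    rcases smul_eq_zero.1 h5 with h6 | h6
    · have h7 : (μ - 3) * ((μ - 1) * (μ * (μ + 2))) = 0 := by rw [← h6]; ring
      simp only [Set.mem_insert_iff, Set.mem_singleton_iff]
      rcases mul_eq_zero.1 h7 with h8 | h8
      · left; linarith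
      rcases mul_eq_zero.1 h8 with h8 | h8
      · right; left; linarith
      rcases mul_eq_zero.1 h8 with h8 | h8
      · right; right; left; exact h8
      · right; right; right; linarith
    · exact absurd h6 hx
  · have key : ∀ (v : Fin 6 → ℤ) (c : ℤ), v ≠ 0 → M *ᵥ v = c • v →
        (c : ℝ) ∈ eigenvalues prism := by
      intro v c hv h
      refine ⟨fun i => (v i : ℝ), ?_, ?_⟩
      · intro h0
        apply hv
        funext i
        have := congrFun h0 i
        simpa using this
      · rw [adj_map]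
        funext i
        have := congrFun h i
        simp only [mulVec, dotProduct, Pi.smul_apply, smul_eq_mul] at this ⊢
        simp only [RingHom.mapMatrix_apply, map_apply, Int.coe_castRingHom]
        exact_mod_cast this
    intro μ hμ
    simp only [Set.mem_insert_iff, Set.mem_singleton_iff] at hμ
    rcases hμ with rfl | rfl | rfl | rfl
    · have := key ![1, 1, 1, 1, 1, 1] 3 (by decide) (by decide)
      exact_mod_cast this
    · have := key ![1, -1, 1, -1, 1, -1] 1 (by decide) (by decide)
      exact_mod_cast this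
    · have := key ![2, -1, -1, 2, -1, -1] 0 (by decide) (by decide)
      exact_mod_cast this
    · have := key ![2, 1, -1, -2, -1, 1] (-2) (by decide) (by decide)
      exact_mod_cast this

theorem connected : prism.Connected := by
  have h : ∀ v : Fin 6, prism.Reachable 0 v := by
    have a2 : prism.Adj 0 2 := by decide
    have a3 : prism.Adj 0 3 := by decide
    have a4 : prism.Adj 0 4 := by decide
    have a35 : prism.Adj 3 5 := by decide
    have a31 : prism.Adj 3 1 := by decide
    intro v
    fin_cases v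
    · exact SimpleGraph.Reachable.refl _
    · exact a3.reachable.trans a31.reachable
    · exact a2.reachable
    · exact a3.reachable
    · exact a4.reachable
    · exact a3.reachable.trans a35.reachable
  exact SimpleGraph.Connected.mk (fun u v => (h u).symm.trans (h v))

theorem dist_eq_two (x y : Fin 6) : prism.dist x y = 2 ↔ (y - x = 1 ∨ y - x = 5) := by
  constructor
  · intro h
    by_contra hne
    rw [not_or] at hne
    have : x = y ∨ prism.Adj x y := far x y hne
    rcases this with h1 | h1
    · subst h1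
      rw [SimpleGraph.dist_self] at h
      omega
    · rw [SimpleGraph.dist_eq_one_iff_adj.2 h1] at h
      omega
  · intro h
    obtain ⟨z, h1, h2⟩ := common x y h
    have hle : prism.dist x y ≤ 2 := by
      have := SimpleGraph.dist_le (SimpleGraph.Walk.cons h1 (SimpleGraph.Walk.cons h2 .nil))
      simpa using this
    have hne : x ≠ y := by
      rintro rfl
      simp at h
    have hna : ¬ prism.Adj x y := nonadj x y h
    have h0 : prism.dist x y ≠ 0 := by
      intro h0
      exact hne ((connected.preconnected x y).dist_eq_zero_iff.1 h0)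
    have h1' : prism.dist x y ≠ 1 := fun h1' => hna (SimpleGraph.dist_eq_one_iff_adj.1 h1')
    omega

theorem dist_le_two (x y : Fin 6) : prism.dist x y ≤ 2 := by
  by_cases h : y - x = 1 ∨ y - x = 5
  · exact ((dist_eq_two x y).2 h).le
  · have : x = y ∨ prism.Adj x y := by
      rw [not_or] at h
      revert h x y
      decide
    rcases this with h1 | h1
    · subst h1
      rw [SimpleGraph.dist_self]
      omega
    · rw [SimpleGraph.dist_eq_one_iff_adj.2 h1]
      omega

theorem sphere_eq (x : Fin 6) : sphere prism 2 x = 2 := by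
  unfold sphere
  have : {y | prism.dist x y = 2} = ({x + 1, x + 5} : Set (Fin 6)) := by
    ext y
    rw [Set.mem_setOf_eq, dist_eq_two]
    simp only [Set.mem_insert_iff, Set.mem_singleton_iff]
    revert x y
    decide
  rw [this, Set.ncard_pair]
  intro h
  have := add_left_cancel h
  exact absurd this (by decide)

theorem deg_eq {q : ℝ[X]} {k : ℕ} (h : q.degree = k) : q.degree ≤ k := h.le

/-- Values of the predistance polynomials `p 2` and `p 3` at `3`. -/
theorem p_values (p : ℕ → ℝ[X]) (hp : IsPredistance prism 3 3 p) :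
    (p 2).eval 3 < 2 ∧ (p 3).eval 3 < 2 := by
  obtain ⟨hd, ho, hn⟩ := hp
  have d0 := hd 0 (by norm_num)
  have d1 := hd 1 (by norm_num)
  have d2 := hd 2 (by norm_num)
  have o01 := ho 1 (by norm_num) 0 (by norm_num) (by norm_num)
  have o20 := ho 2 (by norm_num) 0 (by norm_num) (by norm_num)
  have o21 := ho 2 (by norm_num) 1 (by norm_num) (by norm_num)
  have o30 := ho 3 (by norm_num) 0 (by norm_num) (by norm_num)
  have o31 := ho 3 (by norm_num) 1 (by norm_num) (by norm_num)
  have o32 := ho 3 (by norm_num) 2 (by norm_num) (by norm_num)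
  have n2 := hn 2 (by norm_num)
  have n3 := hn 3 (by norm_num)
  have e0 : p 0 = C ((p 0).coeff 0) := eq_C_of_degree_le_zero (by rw [d0]; norm_num)
  have e1 : p 1 = C ((p 1).coeff 1) * X + C ((p 1).coeff 0) :=
    eq_X_add_C_of_degree_le_one (by rw [d1]; norm_num)
  have e2 : p 2 = C ((p 2).coeff 2) * X ^ 2 + C ((p 2).coeff 1) * X + C ((p 2).coeff 0) :=
    eq_quadratic_of_degree_le_two (by rw [d2]; norm_num)
  have c0 : (p 0).coeff 0 ≠ 0 := by
    intro h
    rw [h, C_0] at e0
    rw [e0, degree_zero] at d0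
    exact absurd d0 (by simp)
  have c1 : (p 1).coeff 1 ≠ 0 := coeff_ne_zero_of_eq_degree d1
  have c2 : (p 2).coeff 2 ≠ 0 := coeff_ne_zero_of_eq_degree d2
  set a0 := (p 0).coeff 0
  set a1 := (p 1).coeff 1
  set b1 := (p 1).coeff 0
  set a2 := (p 2).coeff 2
  set b2 := (p 2).coeff 1
  set g2 := (p 2).coeff 0
  rw [ip_eq] at o01 o20 o21 o30 o31 o32 n2 n3
  rw [e0] at o01 o20 o30
  rw [e1] at o01 o21 o31
  rw [e2] at o20 o21 o32 n2
  have v2 : (p 2).eval 3 = 9 * a2 + 3 * b2 + g2 := by
    rw [e2]; simp only [eval_add, eval_mul, eval_C, eval_pow, eval_X]; ring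
  simp only [eval_add, eval_mul, eval_C, eval_pow, eval_X] at o01 o20 o21 o30 o31 o32 n2
  -- p 2
  have r1 : g2 = -3 * a2 := by
    have : a0 * (g2 + 3 * a2) = 0 := by linarith
    rcases mul_eq_zero.1 this with h | h
    · exact absurd h c0
    · linarith
  have s1 : b1 = 0 := by
    have : a0 * b1 = 0 := by linarith
    rcases mul_eq_zero.1 this with h | h
    · exact absurd h c0
    · exact h
  have r2 : b2 = -2 / 3 * a2 := by
    have : a1 * (12 * a2 + 18 * b2) = 0 := by
      rw [s1] at o21
      linarith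
    rcases mul_eq_zero.1 this with h | h
    · exact absurd h c1
    · linarith
  have r3 : a2 = 6 / 13 := by
    rw [r1, r2] at n2
    have : a2 * (a2 - 6 / 13) = 0 := by linarith
    rcases mul_eq_zero.1 this with h | h
    · exact absurd h c2
    · linarith
  refine ⟨by rw [v2, r1, r2, r3]; norm_num, ?_⟩
  -- p 3
  set x3 := (p 3).eval 3
  set x1 := (p 3).eval 1
  set x0 := (p 3).eval 0
  set xm := (p 3).eval (-2)
  have t0 : x3 + x1 + 2 * x0 + 2 * xm = 0 := by
    have : a0 * (x3 + x1 + 2 * x0 + 2 * xm) = 0 := by linarith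
    rcases mul_eq_zero.1 this with h | h
    · exact absurd h c0
    · exact h
  have t1 : 3 * x3 + x1 - 4 * xm = 0 := by
    have : a1 * (3 * x3 + x1 - 4 * xm) = 0 := by
      rw [s1] at o31
      linarith
    rcases mul_eq_zero.1 this with h | h
    · exact absurd h c1
    · exact h
  have t2 : 9 * x3 + x1 + 8 * xm = 0 := by
    rw [r1, r2, r3] at o32
    linarith
  have u1 : xm = -x3 / 2 := by linarith
  have u2 : x1 = -5 * x3 := by linarith
  have u3 : x0 = 5 / 2 * x3 := by linarith
  rw [u1, u2, u3] at n3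
  have : x3 * (x3 - 2 / 13) = 0 := by linarith
  rcases mul_eq_zero.1 this with h | h
  · linarith
  · linarith

/-- Explicit predistance polynomials of the prism. -/
noncomputable def P : ℕ → ℝ[X]
  | 0 => C 1
  | 1 => X
  | 2 => C (6 / 13) * X ^ 2 + C (-4 / 13) * X + C (-18 / 13)
  | 3 => C (1 / 5) * X ^ 3 + C (-17 / 65) * X ^ 2 + C (-71 / 65) * X + C (5 / 13)
  | _ => 0

theorem P_spec : IsPredistance prism 3 3 P := by
  refine ⟨?_, ?_, ?_⟩
  · intro i hi
    interval_cases i
    · exact degree_C one_ne_zero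
    · exact degree_X
    · exact degree_quadratic (by norm_num)
    · exact degree_cubic (by norm_num)
  · intro i hi j hj hij
    rw [ip_eq]
    interval_cases i <;> interval_cases j <;> first
      | exact absurd rfl hij
      | (simp only [P, eval_add, eval_mul, eval_C, eval_pow, eval_X]; norm_num)
  · intro i hi
    rw [ip_eq]
    interval_cases i <;> (simp only [P, eval_add, eval_mul, eval_C, eval_pow, eval_X]; norm_num)

/-- The prism is walk-regular and 3-regular with diameter 2 and four distinct eigenvalues, and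
every vertex has more than `p_i(3)` vertices at distance 2, for `i = 2, 3`. -/
theorem result : ∃ G : SimpleGraph (Fin 6), G.Connected ∧ (∀ x, (G.neighborSet x).ncard = 3) ∧
    WalkRegular G ∧ IsDiameter G 2 ∧ (eigenvalues G).ncard = 3 + 1 ∧
    IsGreatest (eigenvalues G) 3 ∧ (∃ p, IsPredistance G 3 3 p) ∧
    ∀ p, IsPredistance G 3 3 p → ∀ x, (p 3).eval 3 < sphere G 2 x ∧
      (p 2).eval 3 < sphere G 2 x := by
  refine ⟨prism, connected, ?_, walkRegular, ⟨dist_le_two, 0, 1, ?_⟩, ?_, ?_, ⟨P, P_spec⟩, ?_⟩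
  · intro x
    have : prism.neighborSet x = ((Finset.univ.filter (fun y => prism.Adj x y) :
        Finset (Fin 6)) : Set (Fin 6)) := by
      ext y; simp
    rw [this, Set.ncard_coe_finset]
    clear this
    revert x
    decide
  · rw [dist_eq_two]; decide
  · rw [eig_sub]
    have : ({3, 1, 0, -2} : Set ℝ) = (({3, 1, 0, -2} : Finset ℝ) : Set ℝ) := by
      simp
    rw [this, Set.ncard_coe_finset]
    rw [Finset.card_insert_of_notMem, Finset.card_insert_of_notMem,
      Finset.card_insert_of_notMem, Finset.card_singleton] <;> norm_num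
  · rw [eig_sub]
    refine ⟨by simp, ?_⟩
    intro μ hμ
    simp only [Set.mem_insert_iff, Set.mem_singleton_iff] at hμ
    rcases hμ with rfl | rfl | rfl | rfl <;> norm_num
  · intro p hp x
    rw [sphere_eq]
    have := p_values p hp
    norm_num
    exact ⟨this.2, this.1⟩

end Pool.Agent.Results.MP_87d29b_co.TopPredistance
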